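import Pool.Agent.X261.IF.Config
import Pool.Agent.TH74.Oligo.Pres

set_option autoImplicit false

namespace Pool.Agent.Results.MP_d567b2_al.IntersectionFull

open Pool.Agent.X261.IF

/-- The configuration `c` is realized by the family `H` of subgroups of `G`. -/
def Realizes (G : Type) [Group G] {k : ℕ} (H : Fin k → Subgroup G)
    (c : Finset (Fin k) → Bool) : Prop :=
  ∀ I : Finset (Fin k), I.Nonempty → ((⨅ i ∈ I, H i).FG ↔ c I = false)

/-- A group is intersection-full if every configuration is realizable in it. -/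
def IntersectionFull (G : Type) [Group G] : Prop :=
  ∀ k : ℕ, 1 ≤ k → ∀ c : Finset (Fin k) → Bool, ∃ H : Fin k → Subgroup G, Realizes G H c

/-- The group `F₂ × F₂ × F₂`. -/
abbrev F3 : Type := FreeGroup (Fin 2) × (FreeGroup (Fin 2) × FreeGroup (Fin 2))

lemma comm_to_int {A : Type} [CommGroup A] (h : A →* FreeGroup (Fin 2)) :
    ∃ n : A →* Multiplicative ℤ, ∀ x, n x = 1 → h x = 1 := by
  have hcomm : ∀ a b : h.range, a * b = b * a := by
    rintro ⟨_, x, rfl⟩ ⟨_, y, rfl⟩
    apply Subtype.ext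
    show h x * h y = h y * h x
    rw [← map_mul, ← map_mul, mul_comm]
  have hfree : IsFreeGroup h.range := inferInstance
  let ι := IsFreeGroup.Generators h.range
  have e2 : FreeGroup ι ≃* h.range := IsFreeGroup.mulEquiv h.range
  have hcomm2 : ∀ a b : FreeGroup ι, a * b = b * a := by
    intro a b
    apply e2.injective
    rw [map_mul, map_mul, hcomm]
  have hsub : Subsingleton ι := by
    constructor
    intro a b
    by_contra hab
    classical
    let h : FreeGroup ι →* Equiv.Perm (Fin 3) :=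
      FreeGroup.lift fun i => if i = a then Equiv.swap 0 1 else Equiv.swap 1 2
    have h1 := congrArg h (hcomm2 (FreeGroup.of a) (FreeGroup.of b))
    rw [map_mul, map_mul] at h1
    simp only [h, FreeGroup.lift_apply_of, if_true] at h1
    rw [if_neg (fun h => hab h.symm)] at h1
    have h2 := congrArg (fun σ : Equiv.Perm (Fin 3) => σ 0) h1
    revert h2
    decide
  have key : ∃ m : h.range →* Multiplicative ℤ, Function.Injective m := by
    rcases isEmpty_or_nonempty ι with hι | ⟨⟨a⟩⟩
    · refine ⟨1, ?_⟩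
      intro x y _
      apply e2.symm.injective
      exact Subsingleton.elim _ _
    · have : Unique ι := { default := a, uniq := fun b => Subsingleton.elim b a }
      exact ⟨(FreeGroup.mulEquivIntOfUnique (α := ι)).toMonoidHom.comp e2.symm.toMonoidHom,
        (FreeGroup.mulEquivIntOfUnique (α := ι)).injective.comp e2.symm.injective⟩
  obtain ⟨m, hm⟩ := key
  refine ⟨m.comp h.rangeRestrict, fun x hx => ?_⟩
  have h1 : h.rangeRestrict x = 1 := hm (by rw [map_one]; exact hx)
  exact congrArg Subtype.val h1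

/-- The embedding of `ℤ⁴` in `F₂ × ℤ³`. -/
def z4 : Multiplicative (Fin 4 → ℤ) →* FreeGroup (Fin 2) × Multiplicative (Fin 3 → ℤ) where
  toFun x := (FreeGroup.of 0 ^ (Multiplicative.toAdd x 0),
    Multiplicative.ofAdd (fun i : Fin 3 => Multiplicative.toAdd x i.succ))
  map_one' := by
    ext <;> simp
  map_mul' x y := by
    refine Prod.ext ?_ ?_
    · simp [zpow_add]
    · rfl

lemma of_zpow_ne (n : ℤ) (h : (FreeGroup.of (0 : Fin 2)) ^ n = 1) : n = 0 := by
  have h1 := congrArg (FreeGroup.lift (fun _ : Fin 2 => Multiplicative.ofAdd (1 : ℤ))) h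
  rw [map_zpow, FreeGroup.lift_apply_of, map_one (FreeGroup.lift _), ← ofAdd_zsmul] at h1
  simpa using congrArg Multiplicative.toAdd h1

lemma z4_inj : Function.Injective z4 := by
  rw [injective_iff_map_eq_one]
  intro x hx
  have h1 := congrArg Prod.fst hx
  have h2 := congrArg Prod.snd hx
  have h3 : Multiplicative.toAdd x 0 = 0 := of_zpow_ne _ h1
  have h4 : ∀ i : Fin 3, Multiplicative.toAdd x i.succ = 0 := fun i =>
    congrFun (congrArg Multiplicative.toAdd h2) i
  apply Multiplicative.toAdd.injective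
  funext i
  refine Fin.cases ?_ ?_ i
  · exact h3
  · exact h4

lemma no_embedding : ¬ ∃ f : FreeGroup (Fin 2) × Multiplicative (Fin 3 → ℤ) →* F3,
    Function.Injective f := by
  rintro ⟨f, hf⟩
  set g : Multiplicative (Fin 4 → ℤ) →* F3 := f.comp z4 with hg
  have hgi : Function.Injective g := by
    rw [hg, MonoidHom.coe_comp]
    exact hf.comp z4_inj
  obtain ⟨n0, h0⟩ := comm_to_int ((MonoidHom.fst _ _).comp g)
  obtain ⟨n1, h1⟩ := comm_to_int (((MonoidHom.fst _ _).comp (MonoidHom.snd _ _)).comp g)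
  obtain ⟨n2, h2⟩ := comm_to_int (((MonoidHom.snd _ _).comp (MonoidHom.snd _ _)).comp g)
  let n : Fin 3 → (Multiplicative (Fin 4 → ℤ) →* Multiplicative ℤ) := ![n0, n1, n2]
  let L : (Fin 4 → ℤ) →ₗ[ℤ] (Fin 3 → ℤ) := LinearMap.pi (fun i =>
    (AddMonoidHom.toMultiplicative.symm (n i)).toIntLinearMap)
  have hL : Function.Injective L := by
    rw [← LinearMap.ker_eq_bot, LinearMap.ker_eq_bot']
    intro x hx
    have e : ∀ i, n i (Multiplicative.ofAdd x) = 1 := fun i => by
      have := congrFun hx i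
      exact this
    have e0 := h0 _ (e 0)
    have e1 := h1 _ (e 1)
    have e2 := h2 _ (e 2)
    have e3 : g (Multiplicative.ofAdd x) = 1 := Prod.ext e0 (Prod.ext e1 e2)
    have e4 : Multiplicative.ofAdd x = 1 := hgi (by rw [e3, map_one])
    exact e4
  have := card_le_of_injective ℤ L hL
  simp at this

lemma fp2 : Group.IsFinitelyPresented (FreeGroup (Fin 2) × FreeGroup (Fin 2)) := by
  obtain ⟨S, hS⟩ := (fg_free : (⊤ : Subgroup (FreeGroup (Fin 2))).FG)
  exact Pool.Agent.TH74.Oligo.fp_prod _ _ (S : Set (FreeGroup (Fin 2))) S.finite_toSet hS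
    (S : Set (FreeGroup (Fin 2))) S.finite_toSet hS

lemma fp3 : Group.IsFinitelyPresented F3 := by
  have := fp2
  obtain ⟨S, hS⟩ := (fg_free : (⊤ : Subgroup (FreeGroup (Fin 2))).FG)
  have h : (⊤ : Subgroup (FreeGroup (Fin 2) × FreeGroup (Fin 2))).FG := by
    rw [← Subgroup.top_prod_top]
    exact Subgroup.FG.prod fg_free fg_free
  obtain ⟨T, hT⟩ := h
  exact Pool.Agent.TH74.Oligo.fp_prod _ _ (S : Set (FreeGroup (Fin 2))) S.finite_toSet hS
    (T : Set (FreeGroup (Fin 2) × FreeGroup (Fin 2))) T.finite_toSet hT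

/-- The map onto the first ambient group. -/
def Φ (k : ℕ) : FreeGroup (AA k) × (FreeGroup (BB k) × FreeGroup (BB k)) →* W k :=
  MonoidHom.prodMap (MonoidHom.id _) δ

lemma Φ_surj (k : ℕ) : Function.Surjective (Φ k) := by
  rintro ⟨u, x⟩
  obtain ⟨y, hy⟩ := δ_surj x
  exact ⟨(u, y), Prod.ext rfl hy⟩

lemma Φ_ker (k : ℕ) : (Φ k).ker.FG := by
  have h : (Φ k).ker = (δ : FreeGroup (BB k) × FreeGroup (BB k) →*
      Multiplicative (BB k → ℤ)).ker.map (MonoidHom.inr _ _) := by
    ext p
    rw [Subgroup.mem_map, MonoidHom.mem_ker]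
    constructor
    · intro hp
      have h1 : p.1 = 1 := congrArg Prod.fst hp
      have h2 : δ p.2 = 1 := congrArg Prod.snd hp
      exact ⟨p.2, h2, Prod.ext h1.symm rfl⟩
    · rintro ⟨y, hy, rfl⟩
      exact Prod.ext rfl hy
  rw [h]
  exact fg_map δ_ker_fg _

lemma full : IntersectionFull F3 := by
  intro k _ c
  obtain ⟨f, hf⟩ := exists_emb (AA k)
  obtain ⟨g, hg⟩ := exists_emb (BB k)
  let j : FreeGroup (AA k) × (FreeGroup (BB k) × FreeGroup (BB k)) →* F3 :=
    MonoidHom.prodMap f (MonoidHom.prodMap g g)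
  have hj : Function.Injective j := by
    rintro ⟨u, v, w⟩ ⟨u', v', w'⟩ h
    have h1 : f u = f u' := congrArg Prod.fst h
    have h2 : g v = g v' := congrArg (fun p => p.2.1) h
    have h3 : g w = g w' := congrArg (fun p => p.2.2) h
    rw [hf h1, hg h2, hg h3]
  refine ⟨fun i => ((HH c i).comap (Φ k)).map j, ?_⟩
  intro I hI
  have h1 : (⨅ i ∈ I, ((HH c i).comap (Φ k)).map j) = ((⨅ i ∈ I, HH c i).comap (Φ k)).map j := by
    have : Nonempty I := hI.to_subtype
    rw [iInf_subtype', iInf_subtype', ← Subgroup.map_iInf j hj, Subgroup.comap_iInf]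
  rw [h1]
  constructor
  · intro h
    have h2 := fg_of_map_injective hj h
    rw [fg_comap_iff (Φ_surj k) (Φ_ker k)] at h2
    by_contra h3
    exact not_fg_of_true c I hI (by simpa using h3) h2
  · intro h
    apply fg_map
    rw [fg_comap_iff (Φ_surj k) (Φ_ker k)]
    exact fg_of_false c I hI h

/-- **`F₂ × F₂ × F₂` is finitely presented, intersection-full and does not contain
`F₂ × ℤ³`.** -/
theorem result : Group.IsFinitelyPresented F3 ∧ IntersectionFull F3 ∧
    ¬ ∃ f : FreeGroup (Fin 2) × Multiplicative (Fin 3 → ℤ) →* F3, Function.Injective f :=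
  ⟨fp3, full, no_embedding⟩

end Pool.Agent.Results.MP_d567b2_al.IntersectionFull
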